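import Pool.Agent.TH247.RQ.Main

set_option autoImplicit false

namespace Pool.Agent.Results.MP_97ada9_an.RealParameter

open Polynomial Pool.Agent.TH247.RQ

private lemma aux {q : ℝ} (hq0 : q ≠ 0) (hq1 : |q| < 1) (M : ℕ) (P : Polynomial ℂ)
    (hP : P = (pn q (M + 1)).map (algebraMap ℝ ℂ)) :
    P.roots.Nodup ∧
      ∀ z w : ℂ, P.IsRoot z → P.IsRoot w → z ≠ w → ‖z‖ ≤ ‖w‖ → ‖z‖ < |q| * ‖w‖ := by
  obtain ⟨σ, hσ, hqσ⟩ : ∃ σ : ℝ, (σ = 1 ∨ σ = -1) ∧ q = σ * |q| := by
    rcases lt_or_gt_of_ne hq0 with h | h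
    · exact ⟨-1, Or.inr rfl, by rw [abs_of_neg h]; ring⟩
    · exact ⟨1, Or.inl rfl, by rw [abs_of_pos h]; ring⟩
  have hσ0 : σ ≠ 0 := by rcases hσ with h | h <;> rw [h] <;> norm_num
  have habs : ∀ i : ℕ, |σ ^ i| = 1 := by
    intro i; rcases sigma_cases hσ i with h | h <;> rw [h] <;> simp
  have hσn : ∀ n : ℕ, σ ^ n * σ ^ n = 1 := fun n => by
    rcases sigma_cases hσ n with h | h <;> rw [h] <;> norm_num
  obtain ⟨y, hy⟩ := exists_good hq0 hq1 hσ hqσ M
  set x : ℕ → ℂ := fun i => ((-σ ^ i * y i : ℝ) : ℂ) with hx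
  have hxnorm : ∀ i, i ≤ M → ‖x i‖ = y i := by
    intro i hi
    rw [hx]
    simp only
    rw [Complex.norm_real, Real.norm_eq_abs, abs_mul, abs_neg, habs, one_mul, abs_of_pos (hy.pos i hi)]
  have hinj : Set.InjOn x (Finset.range (M + 1)) := by
    intro i hi j hj hij
    simp only [Finset.coe_range, Set.mem_Iio] at hi hj
    have h1 : y i = y j := by
      rw [← hxnorm i (by omega), ← hxnorm j (by omega), hij]
    rcases lt_trichotomy i j with h2 | h2 | h2
    · exact absurd h1 (hy.mono hq1 h2 (by omega)).ne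
    · exact h2
    · exact absurd h1 (hy.mono hq1 h2 (by omega)).ne'
  -- the real factorization as polynomials
  have hpoly : pn q (M + 1) = ∏ i ∈ Finset.range (M + 1), (1 + C (σ ^ i / y i) * X) := by
    apply Polynomial.funext
    intro t
    rw [hy.fac t, eval_prod]
    apply Finset.prod_congr rfl
    intro i _
    simp only [eval_add, eval_one, eval_mul, eval_C, eval_X]
    ring
  have hPf : P = C (∏ i ∈ Finset.range (M + 1), ((σ ^ i / y i : ℝ) : ℂ)) *
      ∏ i ∈ Finset.range (M + 1), (X - C (x i)) := by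
    rw [hP, hpoly, Polynomial.map_prod, map_prod, ← Finset.prod_mul_distrib]
    apply Finset.prod_congr rfl
    intro i hi
    rw [Finset.mem_range] at hi
    have hyi := hy.pos i (by omega)
    rw [Polynomial.map_add, Polynomial.map_one, Polynomial.map_mul, map_C, map_X, mul_sub,
      ← C_mul]
    have : ((σ ^ i / y i : ℝ) : ℂ) * x i = -1 := by
      rw [hx]
      simp only
      rw [← Complex.ofReal_mul]
      have : σ ^ i / y i * (-σ ^ i * y i) = -1 := by
        have h2 : σ ^ i / y i * (-σ ^ i * y i) = -(σ ^ i * σ ^ i) := by field_simp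
        rw [h2, hσn]
      rw [this]; simp
    rw [this]
    simp only [Complex.coe_algebraMap, C_neg, C_1]
    ring
  have hc : (∏ i ∈ Finset.range (M + 1), ((σ ^ i / y i : ℝ) : ℂ)) ≠ 0 := by
    rw [Finset.prod_ne_zero_iff]
    intro i hi
    rw [Finset.mem_range] at hi
    rw [Complex.ofReal_ne_zero]
    exact div_ne_zero (pow_ne_zero _ hσ0) (hy.pos i (by omega)).ne'
  have hprod : ∏ i ∈ Finset.range (M + 1), (X - C (x i))
      = ∏ a ∈ (Finset.range (M + 1)).image x, (X - C a) := by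
    rw [Finset.prod_image hinj]
  have hroots : P.roots = ((Finset.range (M + 1)).image x).val := by
    rw [hPf, roots_C_mul _ hc, hprod, roots_prod_X_sub_C]
  have hP0 : P ≠ 0 := by
    rw [hPf, hprod]
    refine mul_ne_zero (by simpa using hc) ?_
    exact (monic_prod_of_monic _ _ (fun a _ => monic_X_sub_C a)).ne_zero
  have hmem : ∀ z, P.IsRoot z → ∃ i, i ≤ M ∧ z = x i := by
    intro z hz
    have h1 : z ∈ P.roots := by rw [mem_roots hP0]; exact hz
    rw [hroots, Finset.mem_val, Finset.mem_image] at h1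
    obtain ⟨i, hi, h2⟩ := h1
    rw [Finset.mem_range] at hi
    exact ⟨i, by omega, h2.symm⟩
  refine ⟨?_, ?_⟩
  · rw [hroots]; exact Finset.nodup _
  · intro z w hz hw hzw hle
    obtain ⟨i, hi, rfl⟩ := hmem z hz
    obtain ⟨j, hj, rfl⟩ := hmem w hw
    rw [hxnorm i hi, hxnorm j hj] at *
    rcases lt_trichotomy i j with h2 | h2 | h2
    · exact hy.chain hq1 h2 hj
    · exact absurd (by rw [h2]) hzw
    · exact absurd hle (not_le.mpr (hy.mono hq1 h2 hi))

/-- For every real `q` in `(-1, 1)` and every `N ≥ 1` the polynomial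
`∑ binom(N,n) q^(n(n-1)/2) z^n` has only simple roots, and two distinct roots `z`, `w` with
`|z| ≤ |w|` satisfy `|z| < |q| |w|`. -/
theorem result :
    ∀ N : ℕ, 0 < N → ∀ q : ℝ, |q| < 1 →
      ∀ P : Polynomial ℂ,
        P = ∑ n ∈ Finset.range (N + 1),
              Polynomial.C ((N.choose n : ℂ) * (q : ℂ) ^ (n * (n - 1) / 2)) * Polynomial.X ^ n →
        P.roots.Nodup ∧
          ∀ z w : ℂ, P.IsRoot z → P.IsRoot w → z ≠ w → ‖z‖ ≤ ‖w‖ →
            ‖z‖ < |q| * ‖w‖ := by
  intro N hN q hq P hP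
  obtain ⟨M, rfl⟩ : ∃ M, N = M + 1 := ⟨N - 1, by omega⟩
  have hP' : P = (pn q (M + 1)).map (algebraMap ℝ ℂ) := by
    rw [hP, pn, Polynomial.map_sum]
    apply Finset.sum_congr rfl
    intro n _
    rw [Polynomial.map_mul, Polynomial.map_pow, map_X, map_C]
    simp
  by_cases hq0 : q = 0
  · subst hq0
    have hd : P.natDegree ≤ 1 := by
      rw [natDegree_le_iff_coeff_eq_zero]
      intro n hn
      rw [hP', coeff_map, coeff_pn]
      have : n * (n - 1) / 2 ≠ 0 := by
        obtain ⟨k, rfl⟩ : ∃ k, n = k + 2 := ⟨n - 2, by omega⟩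
        have h1 : 2 ≤ (k + 2) * (k + 2 - 1) := by
          rw [show k + 2 - 1 = k + 1 by omega]; nlinarith
        omega
      rw [zero_pow this]; simp
    have hP0 : P ≠ 0 := by
      intro h0
      have : P.coeff 0 = 1 := by rw [hP', coeff_map, coeff_pn]; simp
      rw [h0] at this; simp at this
    have hcard : Multiset.card P.roots ≤ 1 := (card_roots' P).trans hd
    rcases Nat.lt_or_ge (Multiset.card P.roots) 1 with h1 | h1
    · have h2 : P.roots = 0 := Multiset.card_eq_zero.mp (by omega)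
      refine ⟨by rw [h2]; exact Multiset.nodup_zero, ?_⟩
      intro z w hz
      have h3 : z ∈ P.roots := by rw [mem_roots hP0]; exact hz
      rw [h2] at h3
      exact absurd h3 (Multiset.notMem_zero z)
    · obtain ⟨a, ha⟩ := Multiset.card_eq_one.mp (le_antisymm hcard h1)
      refine ⟨by rw [ha]; exact Multiset.nodup_singleton a, ?_⟩
      intro z w hz hw hzw
      have h3 : z ∈ P.roots := by rw [mem_roots hP0]; exact hz
      have h4 : w ∈ P.roots := by rw [mem_roots hP0]; exact hw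
      rw [ha, Multiset.mem_singleton] at h3 h4
      exact absurd (h3.trans h4.symm) hzw
  · exact aux hq0 hq M P hP'

end Pool.Agent.Results.MP_97ada9_an.RealParameter
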