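import Pool.Agent.TH247.RQC.Main

/-!
# Root separation of `P_N(z;q)` for all complex `q` with `|q| ≤ 11/25`

For every complex `q` with `|q| ≤ 11/25` and every `N ≥ 1` all roots of
`P_N(z;q) = ∑ binom(N,n) q^(n(n-1)/2) z^n` are simple, and two distinct roots `z`, `w` with
`|z| ≤ |w|` satisfy `|z| < |q| |w|`.

The proof is a continuation in the argument of `q`, for fixed `|q|`, from the real point `|q|`.
Let `z_j` be the roots of `P_N(.;q)` and `w_j` the ones of `P_(N-1)(.;q)`, in the order of their
moduli. The inequalities `|z_j| < |w_j| < |q| |z_(j+1)|` hold for positive `q`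
(`Pool/Agent/TH247/RQC/Inter.lean`). They are an open condition (`Pert.lean`), and the
non-strict inequalities are a closed condition (`Main.lean`). The non-strict inequalities imply the
strict ones (`Weak.lean`): as `P_N'(x) = N P_(N-1)(q x)`, an equality `|w_j| = |q| |z_(j+1)|` is a
root of `P_N'` on the circle through `z_(j+1)`, where the real part of `x P_N'(x) / P_N(x)` is
positive by the separation of the roots if `|q| ≤ 11/25` (`Est.lean`), and an equality
`|z_j| = |w_j|` becomes one of the first kind by the symmetry `x -> 1 / (q^(N-1) x)`.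
-/

set_option autoImplicit false

namespace Pool.Agent.Results.MP_97ada9_an.SmallParameter

open Polynomial Pool.Agent.TH247.RQC

private lemma aux {q : ℂ} (hq0 : q ≠ 0) (hq1 : ‖q‖ ≤ 11 / 25) (M : ℕ) (P : Polynomial ℂ)
    (hP : P = pc q (M + 1)) :
    P.roots.Nodup ∧
      ∀ z w : ℂ, P.IsRoot z → P.IsRoot w → z ≠ w → ‖z‖ ≤ ‖w‖ → ‖z‖ < ‖q‖ * ‖w‖ := by
  obtain ⟨u, v, h⟩ := exists_st hq0 hq1 M
  have hqp : 0 < ‖q‖ := norm_pos_iff.2 hq0
  have hu0 : ∀ i, i ≤ M → u i ≠ 0 := fun i hi => ne_zero_of_fac hq0 h.fu (by omega)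
  have hup : ∀ i, i ≤ M → 0 < ‖u i‖ := fun i hi => norm_pos_iff.2 (hu0 i hi)
  have hchain : ∀ i j, i < j → j ≤ M → ‖u j‖ < ‖q‖ * ‖u i‖ := by
    intro i j hij hj
    induction j with
    | zero => omega
    | succ j ih =>
      have h1 := h.lt1 j (by omega)
      have h2 := h.lt2 j (by omega)
      have h3 : ‖u (j + 1)‖ < ‖q‖ * ‖u j‖ := h2.trans (mul_lt_mul_of_pos_left h1 hqp)
      rcases Nat.lt_or_ge i j with h4 | h4
      · have h5 := ih h4 (by omega)
        have h6 := hup j (by omega)
        nlinarith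
      · have : i = j := by omega
        subst this
        exact h3
  have hanti : ∀ i j, i < j → j ≤ M → ‖u j‖ < ‖u i‖ := by
    intro i j hij hj
    have h1 := hchain i j hij hj
    have h2 := hup i (by omega)
    nlinarith
  set x : ℕ → ℂ := fun i => 1 / u i with hx
  have hxn : ∀ i, ‖x i‖ = 1 / ‖u i‖ := by
    intro i
    rw [hx]
    simp only
    rw [norm_div, norm_one]
  have hinj : Set.InjOn x (Finset.range (M + 1)) := by
    intro i hi j hj hij
    simp only [Finset.coe_range, Set.mem_Iio] at hi hj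
    have h1 : ‖u i‖ = ‖u j‖ := by
      have h2 : 1 / ‖u i‖ = 1 / ‖u j‖ := by rw [← hxn, ← hxn, hij]
      have h3 := hup i (by omega)
      have h4 := hup j (by omega)
      rw [div_eq_div_iff h3.ne' h4.ne'] at h2
      linarith
    rcases lt_trichotomy i j with h2 | h2 | h2
    · exact absurd h1 (hanti i j h2 (by omega)).ne'
    · exact h2
    · exact absurd h1 (hanti j i h2 (by omega)).ne
  have hpoly : pc q (M + 1) = ∏ i ∈ Finset.range (M + 1), (1 - C (u i) * X) := by
    apply Polynomial.funext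
    intro t
    rw [h.fu t, eval_prod]
    apply Finset.prod_congr rfl
    intro i _
    simp
  have hPf : P = C (∏ i ∈ Finset.range (M + 1), (-u i)) *
      ∏ i ∈ Finset.range (M + 1), (X - C (x i)) := by
    rw [hP, hpoly, map_prod, ← Finset.prod_mul_distrib]
    apply Finset.prod_congr rfl
    intro i hi
    rw [Finset.mem_range] at hi
    have h1 := hu0 i (by omega)
    rw [mul_sub, ← C_mul]
    have h2 : -u i * x i = -1 := by
      rw [hx]
      field_simp
    rw [h2]
    simp only [C_neg, C_1]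
    ring
  have hc : (∏ i ∈ Finset.range (M + 1), (-u i)) ≠ 0 := by
    rw [Finset.prod_ne_zero_iff]
    intro i hi
    rw [Finset.mem_range] at hi
    exact neg_ne_zero.2 (hu0 i (by omega))
  have hprod : ∏ i ∈ Finset.range (M + 1), (X - C (x i))
      = ∏ a ∈ (Finset.range (M + 1)).image x, (X - C a) := by
    rw [Finset.prod_image hinj]
  have hroots : P.roots = ((Finset.range (M + 1)).image x).val := by
    rw [hPf, roots_C_mul _ hc, hprod, roots_prod_X_sub_C]
  have hP0 : P ≠ 0 := by
    rw [hPf, hprod]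
    refine mul_ne_zero (C_ne_zero.2 hc) ?_
    exact (monic_prod_of_monic _ _ (fun a _ => monic_X_sub_C a)).ne_zero
  have hmem : ∀ z, P.IsRoot z → ∃ i, i ≤ M ∧ z = x i := by
    intro z hz
    have h1 : z ∈ P.roots := by rw [mem_roots hP0]; exact hz
    rw [hroots, Finset.mem_val, Finset.mem_image] at h1
    obtain ⟨i, hi, h2⟩ := h1
    rw [Finset.mem_range] at hi
    exact ⟨i, by omega, h2.symm⟩
  refine ⟨?_, ?_⟩
  · rw [hroots]; exact Finset.nodup _
  · intro z w hz hw hzw hle
    obtain ⟨i, hi, rfl⟩ := hmem z hz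
    obtain ⟨j, hj, rfl⟩ := hmem w hw
    rw [hxn i, hxn j] at *
    have h3 := hup i hi
    have h4 := hup j hj
    rcases lt_trichotomy i j with h2 | h2 | h2
    · have h5 := hchain i j h2 hj
      rw [mul_one_div, div_lt_div_iff₀ h3 h4, one_mul]
      exact h5
    · exact absurd (by rw [h2]) hzw
    · have h5 := hanti j i h2 hi
      exact absurd hle (not_le.mpr (one_div_lt_one_div_of_lt h3 h5))

/-- For every complex `q` with `|q| ≤ 11/25` and every `N ≥ 1` the polynomial
`∑ binom(N,n) q^(n(n-1)/2) z^n` has only simple roots, and two distinct roots `z`, `w` with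
`|z| ≤ |w|` satisfy `|z| < |q| |w|`. -/
theorem result :
    ∀ N : ℕ, 0 < N → ∀ q : ℂ, ‖q‖ ≤ 11 / 25 →
      ∀ P : Polynomial ℂ,
        P = ∑ n ∈ Finset.range (N + 1),
              Polynomial.C ((N.choose n : ℂ) * q ^ (n * (n - 1) / 2)) * Polynomial.X ^ n →
        P.roots.Nodup ∧
          ∀ z w : ℂ, P.IsRoot z → P.IsRoot w → z ≠ w → ‖z‖ ≤ ‖w‖ →
            ‖z‖ < ‖q‖ * ‖w‖ := by
  intro N hN q hq P hP
  obtain ⟨M, rfl⟩ : ∃ M, N = M + 1 := ⟨N - 1, by omega⟩
  have hP' : P = pc q (M + 1) := hP
  by_cases hq0 : q = 0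
  · subst hq0
    have hd : P.natDegree ≤ 1 := by
      rw [natDegree_le_iff_coeff_eq_zero]
      intro n hn
      rw [hP', coeff_pc]
      have : n * (n - 1) / 2 ≠ 0 := by
        obtain ⟨k, rfl⟩ : ∃ k, n = k + 2 := ⟨n - 2, by omega⟩
        have h1 : 2 ≤ (k + 2) * (k + 2 - 1) := by
          rw [show k + 2 - 1 = k + 1 by omega]; nlinarith
        omega
      rw [zero_pow this]; simp
    have hP0 : P ≠ 0 := by
      intro h0
      have : P.coeff 0 = 1 := by rw [hP', coeff_pc]; simp
      rw [h0] at this; simp at this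
    have hcard : Multiset.card P.roots ≤ 1 := (card_roots' P).trans hd
    rcases Nat.lt_or_ge (Multiset.card P.roots) 1 with h1 | h1
    · have h2 : P.roots = 0 := Multiset.card_eq_zero.mp (by omega)
      refine ⟨by rw [h2]; exact Multiset.nodup_zero, ?_⟩
      intro z w hz
      have h3 : z ∈ P.roots := by rw [mem_roots hP0]; exact hz
      rw [h2] at h3
      exact absurd h3 (Multiset.notMem_zero z)
    · obtain ⟨a, ha⟩ := Multiset.card_eq_one.mp (le_antisymm hcard h1)
      refine ⟨by rw [ha]; exact Multiset.nodup_singleton a, ?_⟩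
      intro z w hz hw hzw
      have h3 : z ∈ P.roots := by rw [mem_roots hP0]; exact hz
      have h4 : w ∈ P.roots := by rw [mem_roots hP0]; exact hw
      rw [ha, Multiset.mem_singleton] at h3 h4
      exact absurd (h3.trans h4.symm) hzw
  · exact aux hq0 hq M P hP'

end Pool.Agent.Results.MP_97ada9_an.SmallParameter
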